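import Mathlib
import Pool.Agent.H.MP_0e8110_lc.Fin

namespace Pool.Agent.Results.MP_0e8110_lc.Yes

/-- the rational polyhedron `A x ≤ b` -/
def polyhedron {n m : ℕ} (A : Fin m → Fin n → ℚ) (b : Fin m → ℚ) :
    Set (EuclideanSpace ℝ (Fin n)) :=
  {x | ∀ i, ∑ j, (A i j : ℝ) * x j ≤ (b i : ℝ)}

/-- the integer points -/
def intPoints (n : ℕ) : Set (EuclideanSpace ℝ (Fin n)) := {x | ∀ j, ∃ z : ℤ, x j = (z : ℝ)}

/-- the ray `R(y,d)` -/
def ray {n : ℕ} (y d : EuclideanSpace ℝ (Fin n)) : Set (EuclideanSpace ℝ (Fin n)) :=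
  {p | ∃ t : ℝ, 0 ≤ t ∧ p = y + t • d}

theorem result (n m : ℕ) (A : Fin m → Fin n → ℚ) (b : Fin m → ℚ) (f : MvPolynomial (Fin n) ℝ)
    (hf : f.totalDegree ≤ 3) :
    ¬ BddBelow ((fun x : EuclideanSpace ℝ (Fin n) => MvPolynomial.eval (fun j => x j) f) ''
        (polyhedron A b ∩ intPoints n)) ↔
      ∃ y d : EuclideanSpace ℝ (Fin n), d ≠ 0 ∧ ray y d ⊆ polyhedron A b ∧
        ∀ ε : ℝ, 0 < ε →
          ¬ BddBelow ((fun x : EuclideanSpace ℝ (Fin n) => MvPolynomial.eval (fun j => x j) f) ''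
            (polyhedron A b ∩ intPoints n ∩ {x | ∃ p ∈ ray y d, dist x p ≤ ε})) := by
  constructor
  · intro h
    by_contra hcon
    push Not at hcon
    obtain ⟨M, hM⟩ := Pool.Agent.H.MP_0e8110_lc.thin A b f hf (by
      intro y d hd hray
      obtain ⟨ε, hε, M, hM⟩ := hcon y d hd (by
        rintro p ⟨t, ht, rfl⟩
        exact hray t ht)
      refine ⟨ε, hε, M, fun x hx hz ⟨t, ht, hxt⟩ => hM ⟨x, ⟨⟨hx, hz⟩, _, ⟨t, ht, rfl⟩, ?_⟩, rfl⟩⟩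
      rwa [dist_eq_norm])
    exact h ⟨M, by rintro _ ⟨x, ⟨hx, hz⟩, rfl⟩; exact hM x hx hz⟩
  · rintro ⟨y, d, -, -, h⟩ hb
    exact h 1 one_pos (hb.mono (Set.image_mono Set.inter_subset_left))

end Pool.Agent.Results.MP_0e8110_lc.Yes
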